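import Pool.Agent.Lib.MP_bbcf47_co.Main

namespace Pool.Agent.Results.MP_bbcf47_co.FatBeyondTen

/-- For every real `M < 31/3` there is a convex 4-polytope, not a simplex, of fatness larger
than `M`. In particular the bound `C = 10` fails. -/
theorem result :
    ∀ M : ℝ, M < 31 / 3 → ∃ S : Finset (Fin 4 → ℝ), ∃ f : ℕ → ℕ,
      (interior (convexHull ℝ (S : Set (Fin 4 → ℝ)))).Nonempty ∧
      (∀ k : ℕ, f k = Set.ncard {F : Set (Fin 4 → ℝ) |
          IsExposed ℝ (convexHull ℝ (S : Set (Fin 4 → ℝ))) F ∧ F.Nonempty ∧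
          Module.finrank ℝ (affineSpan ℝ F).direction = k}) ∧
      10 < f 0 + f 3 ∧
      M * ((f 0 : ℝ) + (f 3 : ℝ) - 10) < (f 1 : ℝ) + (f 2 : ℝ) - 20 :=
  Pool.Agent.Fat.main

end Pool.Agent.Results.MP_bbcf47_co.FatBeyondTen
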